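import Pool.Agent.H42EE.Transv

set_option autoImplicit false

/-!
# The discriminant exponent of the associated form is one

For all `n ≥ 2` and `d ≥ 3` the number `p(n, d)` of MP_ee1e03_al is `1`.

Proof.  Let `F` be the universal form of degree `d` in `z_1, ..., z_n`, with coefficients in the polynomial
ring `A`, and `F_j` its partial derivatives.  Only `F_j` contains the coefficient `a_j` of `z_j ^ d`, and
`F_j = d a_j z_j ^ (d-1) + ...`; so the leading monomials `a_j z_j ^ (d-1)` of the `F_j` are pairwise
coprime, and it follows that every form `g` of degree `n (d - 2)` in `z` over `A` such that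
`z_j ^ N g` lies in `(F_1, ..., F_n)` for all `j` and large `N` lies in `A H + (F_1, ..., F_n)`,
where `H` is the Hessian determinant of `F`, with the leading monomial `∏ a_j z_j ^ (d-2)`.
This can be applied to `g = Δ z^i`.  The same leading monomials show that the ideal of the polynomials
vanishing at the degenerate forms is generated by one polynomial, the discriminant.

The definitions `Exponent`, `mon`, `form`, `Nondegenerate`, `IsDiscriminant`, `jacobianIdeal`, `hessian`,
`mu` and `IsPolynomialFunction` are in `Pool.Agent.H42EE.Defs`.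
-/

namespace Pool.Agent.Results.MP_ee1e03_al.ExponentOne

open MvPolynomial Pool.Agent.H42EE

/-- `p` is the number `p(n, d)`, for the discriminant `Δ`: there are numbers `p_i`, `|i| = n (d - 2)`, such
that `p_i` is the smallest integer for which `Δ^(p_i) μ_i` is a polynomial function, and `p` is the largest
of the `p_i`. -/
def IsExponent {n d : ℕ} (Δ : MvPolynomial (Exponent n d) ℂ) (p : ℤ) : Prop :=
  ∃ q : Exponent n (n * (d - 2)) → ℤ, (∀ i, IsLeast {r : ℤ | IsPolynomialFunction Δ i r} (q i)) ∧
    IsGreatest (Set.range q) p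

/-- Let `n ≥ 2` and `d ≥ 3`.  The discriminant exists and is unique up to a constant factor; for every
nondegenerate form `f` of degree `d` and every `i` with `|i| = n (d - 2)` there is exactly one number
`μ_i(f)` with `z^i = μ_i(f) H_f` in the Milnor algebra of `f`; for every `i` the smallest integer `p_i` for
which `Δ^(p_i) μ_i` is a polynomial function on the space of all forms exists and is equal to `1`; and so
`p(n, d) = max p_i = 1`. -/
theorem result (n d : ℕ) (hn : 2 ≤ n) (hd : 3 ≤ d) :
    (∃ Δ : MvPolynomial (Exponent n d) ℂ, IsDiscriminant Δ) ∧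
    (∀ Δ Δ' : MvPolynomial (Exponent n d) ℂ, IsDiscriminant Δ → IsDiscriminant Δ' →
      Associated Δ Δ') ∧
    (∀ (a : Exponent n d → ℂ) (i : Exponent n (n * (d - 2))), Nondegenerate a → ∀ c : ℂ,
      mon i - C c * hessian a ∈ jacobianIdeal a ↔ c = mu i a) ∧
    ∀ Δ : MvPolynomial (Exponent n d) ℂ, IsDiscriminant Δ →
      (∀ i, IsLeast {p : ℤ | IsPolynomialFunction Δ i p} 1) ∧ ∀ p : ℤ, IsExponent Δ p ↔ p = 1 := by
  have h1 : ∀ Δ : MvPolynomial (Exponent n d) ℂ, IsDiscriminant Δ →
      ∀ i, IsLeast {p : ℤ | IsPolynomialFunction Δ i p} 1 := fun Δ hΔ i =>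
    ⟨poly_one hn hd hΔ i, fun p hp => one_le hn hd hΔ i (mu_not_zero hn hd i) p hp⟩
  refine ⟨?_, fun Δ Δ' h h' => discriminant_unique (by omega) (by omega) h h', ?_,
    fun Δ hΔ => ⟨h1 Δ hΔ, ?_⟩⟩
  · obtain ⟨Δ, hΔ, -⟩ := exists_discriminant (n := n) (d := d) (by omega) (by omega)
    exact ⟨Δ, hΔ⟩
  · intro a i ha c
    have h2 := mu_spec (by omega) (by omega) ha i
    constructor
    · intro h
      exact mu_unique hn hd ha i h h2
    · rintro rfl
      exact h2
  · intro p
    constructor
    · rintro ⟨q, hq, ⟨i, rfl⟩, -⟩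
      exact (hq i).unique (h1 Δ hΔ i)
    · rintro rfl
      refine ⟨fun _ => 1, h1 Δ hΔ, ⟨spe _ ⟨0, by omega⟩, rfl⟩, ?_⟩
      rintro _ ⟨i, rfl⟩
      exact le_rfl

end Pool.Agent.Results.MP_ee1e03_al.ExponentOne
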